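import Mathlib

namespace Pool.Agent.Results.MP_b969c4_an.MacLaneSets

open Filter Topology Set Metric

/-- A family of functions is normal on `N` when every sequence in it has a subsequence converging
uniformly on compact subsets of `N`, to an analytic function or to infinity. -/
def IsNormalFamily (N : Set ℂ) (F : Set (ℂ → ℂ)) : Prop :=
  ∀ u : ℕ → ℂ → ℂ, (∀ i, u i ∈ F) →
    ∃ φ : ℕ → ℕ, StrictMono φ ∧
      ((∃ g : ℂ → ℂ, AnalyticOnNhd ℂ g N ∧
          ∀ K ⊆ N, IsCompact K → TendstoUniformlyOn (fun i => u (φ i)) g atTop K) ∨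
        (∀ K ⊆ N, IsCompact K → ∀ M : ℝ, ∀ᶠ i in atTop, ∀ z ∈ K, M ≤ ‖u (φ i) z‖))

/-- The set of MacLane points of `f` in `G`. -/
def macLaneSet (G : Set ℂ) (f : ℂ → ℂ) : Set ℂ :=
  {z | z ∈ G ∧ ∃ N : Set ℂ, IsOpen N ∧ z ∈ N ∧ N ⊆ G ∧
    IsNormalFamily N {g | ∃ n : ℕ, g = iteratedDeriv n f}}

/-- exponential generating function -/
noncomputable def egf (c : ℕ → ℂ) (z : ℂ) : ℂ := ∑' j, c j * z ^ j / (j.factorial : ℂ)

theorem summable_bound (K A R : ℝ) :
    Summable (fun j : ℕ => K * A ^ j * R ^ j / (j.factorial : ℝ)) := by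
  have h := (Real.summable_pow_div_factorial (A * R)).mul_left K
  refine h.congr fun j => ?_
  rw [mul_pow]
  ring

theorem term_bound {c : ℕ → ℂ} {K A : ℝ} (hc : ∀ j, ‖c j‖ ≤ K * A ^ j) {R : ℝ} {z : ℂ}
    (hz : ‖z‖ ≤ R) (j : ℕ) :
    ‖c j * z ^ j / (j.factorial : ℂ)‖ ≤ K * A ^ j * R ^ j / (j.factorial : ℝ) := by
  rw [norm_div, norm_mul, norm_pow, Complex.norm_natCast]
  have h1 : ‖z‖ ^ j ≤ R ^ j := pow_le_pow_left₀ (norm_nonneg _) hz j
  have h0 : 0 ≤ K * A ^ j := (norm_nonneg _).trans (hc j)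
  gcongr
  exact hc j

theorem summable_term {c : ℕ → ℂ} {K A : ℝ} (hc : ∀ j, ‖c j‖ ≤ K * A ^ j) (z : ℂ) :
    Summable (fun j : ℕ => c j * z ^ j / (j.factorial : ℂ)) :=
  Summable.of_norm_bounded (summable_bound K A ‖z‖) (term_bound hc le_rfl)

theorem hasDerivAt_egf {c : ℕ → ℂ} {K A : ℝ} (hc : ∀ j, ‖c j‖ ≤ K * A ^ j) (z : ℂ) :
    HasDerivAt (egf c) (egf (fun j => c (j + 1)) z) z := by
  have hA : ∀ j, ‖c (j + 1)‖ ≤ (K * A) * A ^ j := by
    intro j
    have := hc (j + 1)
    rw [pow_succ] at this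
    linarith
  set R : ℝ := ‖z‖ + 1 with hR
  have hu : Summable (fun j : ℕ => ‖c j‖ * (j * R ^ (j - 1)) / (j.factorial : ℝ)) := by
    rw [← summable_nat_add_iff 1]
    refine Summable.of_nonneg_of_le (fun j => by positivity) (fun j => ?_)
      (summable_bound (K * A) A R)
    have h1 : ((j + 1).factorial : ℝ) = (j + 1) * j.factorial := by
      rw [Nat.factorial_succ]; push_cast; ring
    have h2 : (0 : ℝ) < j.factorial := by positivity
    rw [h1]
    simp only [Nat.add_sub_cancel]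
    push_cast
    have h3 : ‖c (j + 1)‖ * (((j : ℝ) + 1) * R ^ j) / (((j : ℝ) + 1) * j.factorial)
        = ‖c (j + 1)‖ * R ^ j / j.factorial := by
      field_simp
    rw [h3]
    have hRpos : 0 ≤ R := by positivity
    gcongr
    exact hA j
  have key := hasDerivAt_tsum_of_isPreconnected (u := fun j : ℕ => ‖c j‖ * (j * R ^ (j - 1)) / (j.factorial : ℝ))
    (g := fun (j : ℕ) (y : ℂ) => c j * y ^ j / (j.factorial : ℂ))
    (g' := fun (j : ℕ) (y : ℂ) => c j * (j * y ^ (j - 1)) / (j.factorial : ℂ))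
    (t := ball (0 : ℂ) R) (y₀ := 0) (y := z) hu isOpen_ball (convex_ball _ _).isPreconnected
    (by
      intro j y _
      exact ((hasDerivAt_pow j y).const_mul (c j)).div_const _)
    (by
      intro j y hy
      rw [norm_div, norm_mul, norm_mul, norm_pow, Complex.norm_natCast, Complex.norm_natCast]
      have hy' : ‖y‖ ≤ R := (mem_ball_zero_iff.1 hy).le
      gcongr)
    (by
      rw [mem_ball_zero_iff, norm_zero, hR]; positivity)
    (summable_term hc 0)
    (by
      rw [mem_ball_zero_iff, hR]; linarith)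
  have hsum : Summable (fun j : ℕ => c j * (j * z ^ (j - 1)) / (j.factorial : ℂ)) := by
    refine Summable.of_norm_bounded hu fun j => ?_
    rw [norm_div, norm_mul, norm_mul, norm_pow, Complex.norm_natCast, Complex.norm_natCast]
    have : ‖z‖ ≤ R := by rw [hR]; linarith
    gcongr
  have heq : ∑' j : ℕ, c j * (j * z ^ (j - 1)) / (j.factorial : ℂ) = egf (fun j => c (j + 1)) z := by
    rw [hsum.tsum_eq_zero_add]
    simp only [Nat.cast_zero, zero_mul, mul_zero, zero_div, zero_add, egf]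
    refine tsum_congr fun j => ?_
    have h1 : ((j + 1).factorial : ℂ) = (j + 1) * j.factorial := by
      rw [Nat.factorial_succ]; push_cast; ring
    have h2 : (j.factorial : ℂ) ≠ 0 := by exact_mod_cast j.factorial_ne_zero
    have h3 : (j : ℂ) + 1 ≠ 0 := by exact_mod_cast j.succ_ne_zero
    rw [h1]
    simp only [Nat.add_sub_cancel]
    push_cast
    field_simp
  rw [← heq]
  exact key

theorem iteratedDeriv_egf {c : ℕ → ℂ} {K A : ℝ} (hc : ∀ j, ‖c j‖ ≤ K * A ^ j) (n : ℕ) :
    iteratedDeriv n (egf c) = egf (fun j => c (n + j)) := by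
  induction n with
  | zero => simp
  | succ n ih =>
    rw [iteratedDeriv_succ, ih]
    funext z
    have h1 : ∀ j, ‖c (n + j)‖ ≤ (K * A ^ n) * A ^ j := by
      intro j
      have := hc (n + j)
      rw [pow_add] at this
      linarith
    rw [(hasDerivAt_egf h1 z).deriv]
    congr 1
    funext j
    congr 1
    ring

/-- Montel type lemma for exponential generating functions. -/
theorem egf_compact {γ : ℕ → ℕ → ℂ} {K A : ℝ} (hγ : ∀ i j, ‖γ i j‖ ≤ K * A ^ j) :
    ∃ φ : ℕ → ℕ, StrictMono φ ∧ ∃ δ : ℕ → ℂ, (∀ j, ‖δ j‖ ≤ K * A ^ j) ∧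
      ∀ R : ℝ, TendstoUniformlyOn (fun i => egf (γ (φ i))) (egf δ) atTop (closedBall 0 R) := by
  have hcomp : IsCompact (Set.pi Set.univ fun j : ℕ => closedBall (0 : ℂ) (K * A ^ j)) :=
    isCompact_univ_pi fun j => isCompact_closedBall _ _
  obtain ⟨δ, hδ, φ, hφ, hlim⟩ := hcomp.tendsto_subseq (x := γ) (fun i => by
    intro j _
    rw [mem_closedBall_zero_iff]
    exact hγ i j)
  have hδ' : ∀ j, ‖δ j‖ ≤ K * A ^ j := by
    intro j
    have := hδ j (Set.mem_univ j)
    rwa [mem_closedBall_zero_iff] at this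
  refine ⟨φ, hφ, δ, hδ', fun R => ?_⟩
  have hlim' : ∀ j, Tendsto (fun i => γ (φ i) j) atTop (𝓝 (δ j)) := by
    intro j
    exact (tendsto_pi_nhds.1 hlim) j
  -- dominated convergence of the majorant
  have hdom : Tendsto (fun i => ∑' j : ℕ, ‖γ (φ i) j - δ j‖ * |R| ^ j / (j.factorial : ℝ)) atTop
      (𝓝 (∑' j : ℕ, ‖δ j - δ j‖ * |R| ^ j / (j.factorial : ℝ))) := by
    refine tendsto_tsum_of_dominated_convergence
      (bound := fun j => (2 * K) * A ^ j * |R| ^ j / (j.factorial : ℝ)) (summable_bound _ _ _) ?_ ?_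
    · intro j
      refine Tendsto.div_const (Tendsto.mul_const _ ?_) _
      exact ((hlim' j).sub_const (δ j)).norm
    · refine Eventually.of_forall fun i j => ?_
      rw [Real.norm_of_nonneg (by positivity)]
      have h1 : ‖γ (φ i) j - δ j‖ ≤ 2 * K * A ^ j := by
        have := norm_sub_le (γ (φ i) j) (δ j)
        have h2 := hγ (φ i) j
        have h3 := hδ' j
        linarith
      gcongr
  simp only [sub_self, norm_zero, zero_mul, zero_div, tsum_zero] at hdom
  rw [Metric.tendstoUniformlyOn_iff]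
  intro ε hε
  filter_upwards [hdom.eventually_lt_const hε] with i hi z hz
  have hz' : ‖z‖ ≤ |R| := (mem_closedBall_zero_iff.1 hz).trans (le_abs_self R)
  refine lt_of_le_of_lt ?_ hi
  rw [dist_comm, dist_eq_norm]
  unfold egf
  rw [← (summable_term (hγ (φ i)) z).tsum_sub (summable_term hδ' z)]
  have hbd : ∀ j, ‖γ (φ i) j - δ j‖ ≤ 2 * K * A ^ j := by
    intro j
    have := norm_sub_le (γ (φ i) j) (δ j)
    have h2 := hγ (φ i) j
    have h3 := hδ' j
    linarith
  have hs : Summable (fun j : ℕ => ‖γ (φ i) j - δ j‖ * |R| ^ j / (j.factorial : ℝ)) := by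
    refine Summable.of_nonneg_of_le (fun j => by positivity) (fun j => ?_)
      (summable_bound (2 * K) A |R|)
    have := hbd j
    gcongr
  refine tsum_of_norm_bounded hs.hasSum fun j => ?_
  have h4 : γ (φ i) j * z ^ j / (j.factorial : ℂ) - δ j * z ^ j / (j.factorial : ℂ)
      = (γ (φ i) j - δ j) * z ^ j / (j.factorial : ℂ) := by ring
  rw [h4, norm_div, norm_mul, norm_pow, Complex.norm_natCast]
  gcongr

/-! ### The coefficients -/

/-- weights -/
def w (B k : ℕ) : ℕ := k + B + 1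

/-- block ends -/
def Nb (B k : ℕ) : ℕ := 100 * (w B k) ^ 2

/-- profile of block `k` -/
noncomputable def pr (B : ℕ) (a : ℕ → ℂ) (k s : ℕ) : ℂ :=
  if 20 * w B k < s then 0 else if s = 1 then -(a k) * (w B k) else
    (w B k : ℂ) * (w B k) ^ s / (s.factorial : ℂ)

theorem exists_block (B n : ℕ) : ∃ k, n ≤ Nb B k := by
  refine ⟨n, ?_⟩
  unfold Nb w
  have h : n + B + 1 ≤ (n + B + 1) ^ 2 := Nat.le_self_pow (by norm_num) _
  omega

/-- index of the block containing `n` -/
def kk (B n : ℕ) : ℕ := Nat.find (exists_block B n)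

/-- the coefficient sequence -/
noncomputable def coef (B : ℕ) (a : ℕ → ℂ) (n : ℕ) : ℂ := pr B a (kk B n) (Nb B (kk B n) - n)

theorem Nb_mono (B : ℕ) {k l : ℕ} (h : k ≤ l) : Nb B k ≤ Nb B l := by
  unfold Nb w
  gcongr

theorem kk_spec (B n : ℕ) : n ≤ Nb B (kk B n) := Nat.find_spec (exists_block B n)

theorem kk_min (B n k : ℕ) (h : k < kk B n) : Nb B k < n := by
  have := Nat.find_min (exists_block B n) h
  omega

theorem kk_le (B n k : ℕ) (h : n ≤ Nb B k) : kk B n ≤ k := Nat.find_min' (exists_block B n) h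

theorem kk_add (B n j : ℕ) (h : n + j ≤ Nb B (kk B n)) : kk B (n + j) = kk B n := by
  apply le_antisymm
  · exact kk_le _ _ _ h
  · by_contra hcon
    push Not at hcon
    have h1 := kk_min B n _ hcon
    have h2 := kk_spec B (n + j)
    omega

theorem kk_Nb (B k : ℕ) : kk B (Nb B k) = k := by
  apply le_antisymm (kk_le _ _ _ le_rfl)
  by_contra hcon
  push Not at hcon
  have h1 := kk_spec B (Nb B k)
  have h2 : Nb B (kk B (Nb B k)) < Nb B k := by
    unfold Nb w at hcon ⊢
    have : (kk B (100 * (k + B + 1) ^ 2) + B + 1) < (k + B + 1) := by omega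
    nlinarith
  omega

theorem kk_Nb_sub (B k m : ℕ) (hm : m ≤ 20 * w B k) : kk B (Nb B k - m) = k := by
  apply le_antisymm (kk_le _ _ _ (Nat.sub_le _ _))
  by_contra hcon
  push Not at hcon
  have h1 := kk_spec B (Nb B k - m)
  have h2 : Nb B (kk B (Nb B k - m)) ≤ Nb B (k - 1) := Nb_mono B (by omega)
  have h3 : Nb B (k - 1) + 20 * w B k < Nb B k := by
    unfold Nb w
    have hk : 1 ≤ k := by omega
    obtain ⟨l, rfl⟩ := Nat.exists_eq_add_of_le hk
    simp only [Nat.add_sub_cancel_left]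
    nlinarith
  omega

theorem kk_Nb_add (B k i : ℕ) : kk B (Nb B k + i) ≤ k + i := by
  apply kk_le
  unfold Nb w
  have h : (k + i + B + 1) ^ 2 = (k + B + 1) ^ 2 + i + (i + 2 * (i * (k + B)) + i ^ 2) := by ring
  omega

theorem kk_Nb_add' (B k i : ℕ) (hi : 1 ≤ i) (hik : i ≤ k) : kk B (Nb B k + i) = k + 1 := by
  apply le_antisymm
  · apply kk_le
    unfold Nb w
    have h : (k + 1 + B + 1) ^ 2 = (k + B + 1) ^ 2 + k + (k + 3 + 2 * B) := by ring
    omega
  · by_contra hcon
    push Not at hcon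
    have h1 := kk_spec B (Nb B k + i)
    have h2 : Nb B (kk B (Nb B k + i)) ≤ Nb B k := Nb_mono B (by omega)
    omega

theorem coef_block (B : ℕ) (a : ℕ → ℂ) (n j : ℕ) (h : n + j ≤ Nb B (kk B n)) :
    coef B a (n + j) = pr B a (kk B n) (Nb B (kk B n) - n - j) := by
  unfold coef
  rw [kk_add B n j h]
  congr 1
  omega

theorem coef_after_zero (B : ℕ) (a : ℕ → ℂ) (k i : ℕ) (hi : 1 ≤ i) (hik : i ≤ k) :
    coef B a (Nb B k + i) = 0 := by
  unfold coef
  rw [kk_Nb_add' B k i hi hik]
  unfold pr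
  rw [if_pos]
  unfold Nb w
  have : 20 * (k + 1 + B + 1) + (100 * (k + B + 1) ^ 2 + i) < 100 * (k + 1 + B + 1) ^ 2 := by
    nlinarith
  omega

/-- real size of the profile -/
noncomputable def kap (B k s : ℕ) : ℝ := (w B k : ℝ) * (w B k : ℝ) ^ s / (s.factorial : ℝ)

theorem kap_nonneg (B k s : ℕ) : 0 ≤ kap B k s := by unfold kap; positivity

theorem norm_pr_le (B : ℕ) (a : ℕ → ℂ) (ha : ∀ k, ‖a k‖ ≤ w B k) (k s : ℕ) :
    ‖pr B a k s‖ ≤ kap B k s := by
  unfold pr
  split_ifs with h1 h2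
  · simpa using kap_nonneg B k s
  · subst h2
    unfold kap
    rw [norm_mul, norm_neg, Complex.norm_natCast]
    simp only [pow_one, Nat.factorial_one, Nat.cast_one, div_one]
    exact mul_le_mul_of_nonneg_right (ha k) (by positivity)
  · unfold kap
    rw [norm_div, norm_mul, norm_pow, Complex.norm_natCast, Complex.norm_natCast]

theorem natCast_le_exp (n : ℕ) : (n : ℝ) ≤ Real.exp n := by
  have := Real.add_one_le_exp (n : ℝ)
  linarith

theorem kap_le (B k s : ℕ) : kap B k s ≤ Real.exp (2 * w B k) := by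
  unfold kap
  rw [mul_div_assoc, two_mul, Real.exp_add]
  have h1 := natCast_le_exp (w B k)
  have h2 := Real.pow_div_factorial_le_exp (x := (w B k : ℝ)) (by positivity) s
  have h3 : (0 : ℝ) ≤ w B k := by positivity
  gcongr

/-- a sharper bound for large `s` -/
theorem kap_le' (B k s : ℕ) : kap B k s ≤ Real.exp (4 * w B k - s) := by
  have h2 := Real.pow_div_factorial_le_exp (x := 3 * (w B k : ℝ)) (by positivity) s
  have h1 := natCast_le_exp (w B k)
  have h3 : (0 : ℝ) ≤ w B k := by positivity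
  have h4 : (w B k : ℝ) ^ s / s.factorial ≤ Real.exp (3 * w B k) * (3 ^ s)⁻¹ := by
    rw [mul_pow] at h2
    rw [← div_eq_mul_inv, le_div_iff₀ (by positivity)]
    calc (w B k : ℝ) ^ s / s.factorial * 3 ^ s = 3 ^ s * (w B k : ℝ) ^ s / s.factorial := by ring
      _ ≤ _ := h2
  have h5 : ((3 : ℝ) ^ s)⁻¹ ≤ Real.exp (-s) := by
    rw [Real.exp_neg]
    have h6 : Real.exp (s : ℝ) ≤ 3 ^ s := by
      have : Real.exp (s : ℝ) = Real.exp 1 ^ s := by rw [← Real.exp_nat_mul, mul_one]
      rw [this]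
      have h7 := Real.exp_one_lt_d9
      have h8 : Real.exp 1 ≤ 3 := by linarith
      exact pow_le_pow_left₀ (Real.exp_pos 1).le h8 s
    gcongr
  unfold kap
  rw [mul_div_assoc]
  calc (w B k : ℝ) * ((w B k : ℝ) ^ s / s.factorial)
      ≤ Real.exp (w B k) * (Real.exp (3 * w B k) * Real.exp (-s)) := by
        refine mul_le_mul h1 (h4.trans ?_) (by positivity) (by positivity)
        gcongr
    _ = Real.exp (4 * w B k - s) := by
        rw [← Real.exp_add, ← Real.exp_add]
        congr 1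
        ring

theorem norm_coef_after (B : ℕ) (a : ℕ → ℂ) (ha : ∀ k, ‖a k‖ ≤ w B k) (k i : ℕ) (hi : 1 ≤ i) :
    ‖coef B a (Nb B k + i)‖ ≤ Real.exp (2 * B + 2 - k + 5 * i) := by
  rcases Nat.lt_or_ge k i with h | h
  · unfold coef
    refine (norm_pr_le B a ha _ _).trans ((kap_le _ _ _).trans ?_)
    apply Real.exp_le_exp.2
    have h1 := kk_Nb_add B k i
    unfold w
    push_cast
    have h2 : ((kk B (Nb B k + i) : ℕ) : ℝ) ≤ k + i := by exact_mod_cast h1
    have h3 : (k : ℝ) ≤ i := by exact_mod_cast h.le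
    linarith
  · rw [coef_after_zero B a k i hi h, norm_zero]
    exact (Real.exp_pos _).le

/-- uniform bound of shifted coefficients -/
theorem norm_coef_shift (B : ℕ) (a : ℕ → ℂ) (ha : ∀ k, ‖a k‖ ≤ w B k) (n j : ℕ) :
    ‖coef B a (n + j)‖ ≤
      ((if Nb B (kk B n) - n ≤ 20 * w B (kk B n) then kap B (kk B n) (Nb B (kk B n) - n) else 0)
        + Real.exp (2 * B + 2)) * (Real.exp 5) ^ j := by
  set k := kk B n with hk
  have hspec := kk_spec B n
  rw [← hk] at hspec
  obtain ⟨m, hm⟩ := Nat.exists_eq_add_of_le hspec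
  have hm' : Nb B k - n = m := by omega
  rw [hm']
  have hexp5 : (1 : ℝ) ≤ Real.exp 5 := Real.one_le_exp (by norm_num)
  have h20 : (20 : ℝ) ≤ Real.exp 5 := by
    have h1 : Real.exp 5 = Real.exp 1 ^ 5 := by rw [← Real.exp_nat_mul]; norm_num
    have h2 := Real.exp_one_gt_d9
    rw [h1]
    calc (20 : ℝ) ≤ 2.7 ^ 5 := by norm_num
      _ ≤ Real.exp 1 ^ 5 := pow_le_pow_left₀ (by norm_num) (by linarith) 5
  have hBpos : (0 : ℝ) ≤ Real.exp (2 * B + 2) := (Real.exp_pos _).le
  rcases Nat.lt_or_ge m j with hj | hj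
  · -- beyond the block
    have h1 : n + j = Nb B k + (j - m) := by omega
    have h2 := norm_coef_after B a ha k (j - m) (by omega)
    rw [h1]
    refine h2.trans ?_
    have h3 : Real.exp (2 * B + 2 - k + 5 * ((j - m : ℕ) : ℝ)) ≤ Real.exp (2 * B + 2) * (Real.exp 5) ^ j := by
      rw [← Real.exp_nat_mul, ← Real.exp_add]
      apply Real.exp_le_exp.2
      have : ((j - m : ℕ) : ℝ) ≤ j := by exact_mod_cast Nat.sub_le _ _
      have h4 : (0 : ℝ) ≤ k := by positivity
      linarith
    refine h3.trans ?_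
    have h5 : 0 ≤ (if m ≤ 20 * w B k then kap B k m else 0) := by
      split_ifs
      · exact kap_nonneg _ _ _
      · exact le_rfl
    have h6 : (0 : ℝ) ≤ (Real.exp 5) ^ j := by positivity
    nlinarith
  · have h1 := coef_block B a n j (by rw [← hk]; omega)
    rw [← hk, hm'] at h1
    rw [h1]
    split_ifs with hmL
    · -- inside the profile
      have h2 := norm_pr_le B a ha k (m - j)
      have h3 : kap B k (m - j) ≤ kap B k m * (Real.exp 5) ^ j := by
        have hwpos : (0 : ℝ) < w B k := by unfold w; positivity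
        have h4 : ((m - j).factorial : ℝ) * (m.descFactorial j : ℝ) = m.factorial := by
          exact_mod_cast Nat.factorial_mul_descFactorial hj
        have h5 : (m.descFactorial j : ℝ) ≤ (m : ℝ) ^ j := by
          exact_mod_cast Nat.descFactorial_le_pow m j
        have h6 : (m : ℝ) ≤ 20 * w B k := by exact_mod_cast hmL
        have h7 : (m : ℝ) ^ j ≤ (w B k : ℝ) ^ j * (Real.exp 5) ^ j := by
          rw [← mul_pow]
          refine pow_le_pow_left₀ (by positivity) ?_ j
          nlinarith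
        have h8 : (w B k : ℝ) ^ m = (w B k : ℝ) ^ (m - j) * (w B k : ℝ) ^ j := by
          rw [← pow_add]; congr 1; omega
        unfold kap
        rw [div_mul_eq_mul_div, div_le_div_iff₀ (by positivity) (by positivity), ← h4, h8]
        have h9 : (0 : ℝ) ≤ (w B k : ℝ) * (w B k : ℝ) ^ (m - j) * ((m - j).factorial : ℝ) := by
          positivity
        calc (w B k : ℝ) * (w B k : ℝ) ^ (m - j) * (((m - j).factorial : ℝ) * (m.descFactorial j : ℝ))
            = (w B k : ℝ) * (w B k : ℝ) ^ (m - j) * ((m - j).factorial : ℝ) * (m.descFactorial j : ℝ) := by ring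
          _ ≤ (w B k : ℝ) * (w B k : ℝ) ^ (m - j) * ((m - j).factorial : ℝ) * ((w B k : ℝ) ^ j * (Real.exp 5) ^ j) :=
              mul_le_mul_of_nonneg_left (h5.trans h7) h9
          _ = _ := by ring
      refine (h2.trans h3).trans ?_
      have h6 : (0 : ℝ) ≤ (Real.exp 5) ^ j := by positivity
      nlinarith
    · -- before the profile
      rw [zero_add]
      by_cases hs : 20 * w B k < m - j
      · unfold pr
        rw [if_pos hs, norm_zero]
        positivity
      · have h2 := norm_pr_le B a ha k (m - j)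
        refine h2.trans ((kap_le' B k (m - j)).trans ?_)
        rw [← Real.exp_nat_mul, ← Real.exp_add]
        apply Real.exp_le_exp.2
        have h3 : (20 : ℝ) * w B k ≤ ((m - j : ℕ) : ℝ) + j := by
          have : 20 * w B k ≤ (m - j) + j := by omega
          exact_mod_cast this
        have h4 : (0 : ℝ) ≤ ((m - j : ℕ) : ℝ) := by positivity
        have h5 : (0 : ℝ) ≤ (w B k : ℝ) := by positivity
        have h6 : (0 : ℝ) ≤ (j : ℝ) := by positivity
        have h7 : (0 : ℝ) ≤ (B : ℝ) := by positivity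
        linarith

theorem norm_coef (B : ℕ) (a : ℕ → ℂ) (ha : ∀ k, ‖a k‖ ≤ w B k) (j : ℕ) :
    ‖coef B a j‖ ≤
      ((if Nb B (kk B 0) - 0 ≤ 20 * w B (kk B 0) then kap B (kk B 0) (Nb B (kk B 0) - 0) else 0)
        + Real.exp (2 * B + 2)) * (Real.exp 5) ^ j := by
  have := norm_coef_shift B a ha 0 j
  rwa [zero_add] at this

/-! ### Main term and tail -/

/-- main term of the derivative of order `Nb B k - m` -/
noncomputable def mainp (B : ℕ) (a : ℕ → ℂ) (k m : ℕ) (z : ℂ) : ℂ :=
  (w B k : ℂ) * (z + w B k) ^ m / (m.factorial : ℂ)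
    - (if m = 0 then 0 else (w B k : ℂ) * (a k + w B k) * z ^ (m - 1) / ((m - 1).factorial : ℂ))

theorem main_sum (B : ℕ) (a : ℕ → ℂ) (n : ℕ) (z : ℂ)
    (hm : Nb B (kk B n) - n ≤ 20 * w B (kk B n)) :
    ∑ j ∈ Finset.range (Nb B (kk B n) - n + 1), coef B a (n + j) * z ^ j / (j.factorial : ℂ)
      = mainp B a (kk B n) (Nb B (kk B n) - n) z := by
  have hspec := kk_spec B n
  have hcb := coef_block B a n
  set k := kk B n with hk
  set m := Nb B k - n with hmdef
  have h1 : ∀ j ∈ Finset.range (m + 1), coef B a (n + j) * z ^ j / (j.factorial : ℂ)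
      = (w B k : ℂ) / (m.factorial : ℂ) * (z ^ j * (w B k : ℂ) ^ (m - j) * (m.choose j : ℂ))
        - (if m - j = 1 then (w B k : ℂ) * (a k + w B k) * z ^ j / (j.factorial : ℂ) else 0) := by
    intro j hj
    have hj' : j ≤ m := by
      have := Finset.mem_range.1 hj
      omega
    rw [hcb j (by omega)]
    have hsub : Nb B k - n - j = m - j := by rw [hmdef]
    rw [hsub]
    have hchoose : (m.choose j : ℂ) = (m.factorial : ℂ) / ((j.factorial : ℂ) * ((m - j).factorial : ℂ)) := by
      rw [Nat.cast_choose ℂ hj']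
    have hf1 : (m.factorial : ℂ) ≠ 0 := by exact_mod_cast m.factorial_ne_zero
    have hf2 : (j.factorial : ℂ) ≠ 0 := by exact_mod_cast j.factorial_ne_zero
    have hf3 : ((m - j).factorial : ℂ) ≠ 0 := by exact_mod_cast (m - j).factorial_ne_zero
    unfold pr
    rw [if_neg (by omega)]
    split_ifs with hs
    · rw [hchoose, hs]
      simp only [Nat.factorial_one, Nat.cast_one, mul_one, pow_one]
      field_simp
      ring
    · rw [hchoose, sub_zero]
      field_simp
  rw [Finset.sum_congr rfl h1, Finset.sum_sub_distrib, ← Finset.mul_sum, ← add_pow]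
  unfold mainp
  congr 1
  · ring
  · rcases Nat.eq_zero_or_pos m with h0 | h0
    · rw [h0]
      simp
    · rw [if_neg (by omega)]
      rw [Finset.sum_eq_single (m - 1)]
      · rw [if_pos (by omega)]
      · intro j hj hne
        have := Finset.mem_range.1 hj
        rw [if_neg (by omega)]
      · intro h
        exact absurd (Finset.mem_range.2 (by omega)) h

/-- constant in the tail estimate -/
noncomputable def Qc (B : ℕ) (R : ℝ) : ℝ :=
  Real.exp (2 * B + 2) * Real.exp R * (Real.exp 5 * R) *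
    ∑' i : ℕ, (Real.exp 5 * R) ^ i / (i.factorial : ℝ)

theorem Qc_nonneg (B : ℕ) (R : ℝ) (hR : 0 ≤ R) : 0 ≤ Qc B R := by
  unfold Qc
  have : 0 ≤ ∑' i : ℕ, (Real.exp 5 * R) ^ i / (i.factorial : ℝ) :=
    tsum_nonneg fun i => by positivity
  positivity

theorem deriv_approx (B : ℕ) (a : ℕ → ℂ) (ha : ∀ k, ‖a k‖ ≤ w B k) (n : ℕ) (z : ℂ) (R : ℝ)
    (hz : ‖z‖ ≤ R) (hm : Nb B (kk B n) - n ≤ 20 * w B (kk B n)) :
    ‖iteratedDeriv n (egf (coef B a)) z - mainp B a (kk B n) (Nb B (kk B n) - n) z‖ ≤ Qc B R := by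
  rw [iteratedDeriv_egf (norm_coef B a ha) n, ← main_sum B a n z hm]
  have hspec := kk_spec B n
  set k := kk B n with hk
  set m := Nb B k - n with hmdef
  have hsum := summable_term (norm_coef_shift B a ha n) z
  have hR : 0 ≤ R := (norm_nonneg z).trans hz
  unfold egf
  rw [← hsum.sum_add_tsum_nat_add (m + 1), add_sub_cancel_left]
  have hS : Summable (fun i : ℕ => (Real.exp 5 * R) ^ i / (i.factorial : ℝ)) :=
    Real.summable_pow_div_factorial _
  have hhas := hS.hasSum.mul_left (Real.exp (2 * B + 2) * Real.exp R * (Real.exp 5 * R))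
  refine tsum_of_norm_bounded hhas fun i => ?_
  have hidx : n + (i + (m + 1)) = Nb B k + (i + 1) := by omega
  have h1 := norm_coef_after B a ha k (i + 1) (by omega)
  rw [hidx, norm_div, norm_mul, norm_pow, Complex.norm_natCast]
  have h2 : ‖z‖ ^ (i + (m + 1)) ≤ R ^ (i + (m + 1)) := pow_le_pow_left₀ (norm_nonneg _) hz _
  have h3 : ((i.factorial : ℝ) * (m.factorial : ℝ)) ≤ ((i + (m + 1)).factorial : ℝ) := by
    have h4 : i.factorial * m.factorial ≤ (i + m).factorial :=
      Nat.le_of_dvd (Nat.factorial_pos _) (Nat.factorial_mul_factorial_dvd_factorial_add i m)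
    have h5 : (i + m).factorial ≤ (i + (m + 1)).factorial := Nat.factorial_le (by omega)
    exact_mod_cast h4.trans h5
  have h6 : R ^ m / (m.factorial : ℝ) ≤ Real.exp R := Real.pow_div_factorial_le_exp R hR m
  have h7 : Real.exp (2 * B + 2 - k + 5 * ((i + 1 : ℕ) : ℝ))
      ≤ Real.exp (2 * B + 2) * (Real.exp 5 * Real.exp 5 ^ i) := by
    rw [← Real.exp_nat_mul, ← Real.exp_add, ← Real.exp_add]
    apply Real.exp_le_exp.2
    push_cast
    have : (0 : ℝ) ≤ k := by positivity
    linarith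
  have h8 : (0 : ℝ) < (i.factorial : ℝ) * (m.factorial : ℝ) := by positivity
  calc ‖coef B a (Nb B k + (i + 1))‖ * ‖z‖ ^ (i + (m + 1)) / ((i + (m + 1)).factorial : ℝ)
      ≤ (Real.exp (2 * B + 2) * (Real.exp 5 * Real.exp 5 ^ i)) * R ^ (i + (m + 1))
          / ((i.factorial : ℝ) * (m.factorial : ℝ)) := by
        have h9 := h1.trans h7
        gcongr
    _ = Real.exp (2 * B + 2) * (R ^ m / (m.factorial : ℝ)) * (Real.exp 5 * R)
          * ((Real.exp 5 * R) ^ i / (i.factorial : ℝ)) := by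
        rw [mul_pow, pow_add, pow_succ]
        field_simp
    _ ≤ Real.exp (2 * B + 2) * Real.exp R * (Real.exp 5 * R)
          * ((Real.exp 5 * R) ^ i / (i.factorial : ℝ)) := by
        gcongr

theorem mainp_one (B : ℕ) (a : ℕ → ℂ) (k : ℕ) (z : ℂ) :
    mainp B a k 1 z = (w B k : ℂ) * (z - a k) := by
  unfold mainp
  simp only [one_ne_zero, if_false, Nat.factorial_one, Nat.cast_one, div_one, pow_one, Nat.sub_self,
    pow_zero, mul_one, Nat.factorial_zero]
  ring

theorem one_sub_ge_exp (x : ℝ) (h0 : 0 ≤ x) (h1 : x ≤ 1 / 2) : Real.exp (-(2 * x)) ≤ 1 - x := by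
  rw [Real.exp_neg]
  have h2 : 2 * x + 1 ≤ Real.exp (2 * x) := Real.add_one_le_exp _
  have h3 : (Real.exp (2 * x))⁻¹ ≤ (2 * x + 1)⁻¹ := by
    apply inv_anti₀ (by linarith) h2
  refine h3.trans ?_
  rw [inv_le_iff_one_le_mul₀ (by linarith)]
  nlinarith

theorem mainp_lower (B : ℕ) (a : ℕ → ℂ) (ha : ∀ k, ‖a k‖ ≤ w B k) (k m : ℕ) (z : ℂ) (R : ℝ)
    (hR : 0 ≤ R) (hz : ‖z‖ ≤ R) (hm : m ≤ 20 * w B k) (hm1 : m ≠ 1)
    (hw : 8 * R * Real.exp (40 * R) + 4 * R ≤ w B k) :
    kap B k m * (Real.exp (-(40 * R)) / 2) ≤ ‖mainp B a k m z‖ := by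
  have hwpos : (0 : ℝ) < w B k := by unfold w; positivity
  have hexp : (0 : ℝ) < Real.exp (-(40 * R)) := Real.exp_pos _
  have hexp1 : Real.exp (-(40 * R)) ≤ 1 := by
    rw [Real.exp_le_one_iff]; linarith
  have hexp2 : 0 < Real.exp (40 * R) := Real.exp_pos _
  have hRw : R / w B k ≤ 1 / 4 := by
    rw [div_le_iff₀ hwpos]
    have : 0 ≤ 8 * R * Real.exp (40 * R) := by positivity
    linarith
  have hRw0 : 0 ≤ R / w B k := by positivity
  have hkap := kap_nonneg B k m
  -- first term
  have hfirst : kap B k m * Real.exp (-(40 * R)) ≤ ‖(w B k : ℂ) * (z + w B k) ^ m / (m.factorial : ℂ)‖ := by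
    rw [norm_div, norm_mul, norm_pow, Complex.norm_natCast, Complex.norm_natCast]
    have h1 : (w B k : ℝ) - R ≤ ‖z + w B k‖ := by
      have h2 : ‖((w B k : ℕ) : ℂ)‖ ≤ ‖z + w B k‖ + ‖z‖ := by
        have h3 := norm_sub_le (z + w B k) z
        rwa [add_sub_cancel_left] at h3
      rw [Complex.norm_natCast] at h2
      linarith
    have h4 : (w B k : ℝ) * (1 - R / w B k) = w B k - R := by field_simp
    have h5 : Real.exp (-(40 * R)) ≤ (1 - R / w B k) ^ m := by
      have h6 := one_sub_ge_exp (R / w B k) hRw0 (by linarith)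
      calc Real.exp (-(40 * R)) ≤ Real.exp (-(2 * (R / w B k))) ^ m := by
            rw [← Real.exp_nat_mul]
            apply Real.exp_le_exp.2
            have h7 : (m : ℝ) ≤ 20 * w B k := by exact_mod_cast hm
            have h8 : (m : ℝ) * (R / w B k) ≤ 20 * R := by
              calc (m : ℝ) * (R / w B k) ≤ (20 * w B k) * (R / w B k) :=
                    mul_le_mul_of_nonneg_right h7 hRw0
                _ = 20 * R := by field_simp
            linarith
        _ ≤ (1 - R / w B k) ^ m := pow_le_pow_left₀ (Real.exp_pos _).le h6 m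
    have h9 : (w B k : ℝ) ^ m * Real.exp (-(40 * R)) ≤ ‖z + w B k‖ ^ m := by
      calc (w B k : ℝ) ^ m * Real.exp (-(40 * R)) ≤ (w B k : ℝ) ^ m * (1 - R / w B k) ^ m := by
            gcongr
        _ = ((w B k : ℝ) * (1 - R / w B k)) ^ m := by rw [mul_pow]
        _ ≤ ‖z + w B k‖ ^ m := by
            apply pow_le_pow_left₀
            · have : 0 ≤ 1 - R / w B k := by linarith
              positivity
            · rw [h4]; exact h1
    unfold kap
    rw [div_mul_eq_mul_div, mul_assoc]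
    gcongr
  unfold mainp
  rcases Nat.eq_zero_or_pos m with h0 | h0
  · subst h0
    rw [if_pos rfl, sub_zero]
    refine le_trans ?_ hfirst
    gcongr
    linarith
  · rw [if_neg (by omega)]
    obtain ⟨t, rfl⟩ : ∃ t, m = t + 2 := ⟨m - 2, by omega⟩
    -- second term
    have hsecond : ‖(w B k : ℂ) * (a k + w B k) * z ^ (t + 2 - 1) / ((t + 2 - 1).factorial : ℂ)‖
        ≤ kap B k (t + 2) * (Real.exp (-(40 * R)) / 2) := by
      rw [norm_div, norm_mul, norm_mul, norm_pow, Complex.norm_natCast, Complex.norm_natCast]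
      have e1 : t + 2 - 1 = t + 1 := by omega
      rw [e1]
      have h1 : ‖a k + w B k‖ ≤ 2 * w B k := by
        refine (norm_add_le _ _).trans ?_
        rw [Complex.norm_natCast]
        linarith [ha k]
      have h2 : ‖z‖ ^ (t + 1) ≤ R ^ (t + 1) := pow_le_pow_left₀ (norm_nonneg _) hz _
      have h3 : ((t + 2).factorial : ℝ) = ((t : ℝ) + 2) * ((t + 1).factorial : ℝ) := by
        rw [Nat.factorial_succ]; push_cast; ring
      have h4 : ((t : ℝ) + 2) ≤ 2 * 4 ^ t := by
        have h5 : 1 + (t : ℝ) * 3 ≤ (1 + 3) ^ t := one_add_mul_le_pow (by norm_num) t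
        have h6 : (0 : ℝ) ≤ t := by positivity
        norm_num at h5
        linarith
      have h7 : (R / w B k) ^ t ≤ (1 / 4) ^ t := pow_le_pow_left₀ hRw0 hRw t
      have h8 : 4 * (R / w B k) ≤ Real.exp (-(40 * R)) / 2 := by
        rw [Real.exp_neg, mul_div_assoc', div_le_iff₀ hwpos]
        have h9 : 8 * R * Real.exp (40 * R) ≤ w B k := by linarith
        have h10 : (Real.exp (40 * R))⁻¹ * (8 * R * Real.exp (40 * R)) = 8 * R := by
          field_simp
        have h11 : (Real.exp (40 * R))⁻¹ * (8 * R * Real.exp (40 * R)) ≤ (Real.exp (40 * R))⁻¹ * w B k := by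
          gcongr
        rw [h10] at h11
        linarith
      -- ratio identity
      have h12 : (w B k : ℝ) * (2 * w B k) * R ^ (t + 1) / ((t + 1).factorial : ℝ)
          = kap B k (t + 2) * (2 * ((t : ℝ) + 2) * ((R / w B k) ^ t * (R / w B k))) := by
        unfold kap
        rw [h3, ← pow_succ, div_pow]
        field_simp
        ring
      have h13 : 2 * ((t : ℝ) + 2) * ((R / w B k) ^ t * (R / w B k)) ≤ 4 * (R / w B k) := by
        have h14 : ((t : ℝ) + 2) * (R / w B k) ^ t ≤ 2 := by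
          calc ((t : ℝ) + 2) * (R / w B k) ^ t ≤ (2 * 4 ^ t) * (1 / 4) ^ t := by gcongr
            _ = 2 * (4 * (1 / 4)) ^ t := by rw [mul_pow]; ring
            _ = 2 := by norm_num
        calc 2 * ((t : ℝ) + 2) * ((R / w B k) ^ t * (R / w B k))
            = 2 * (((t : ℝ) + 2) * (R / w B k) ^ t) * (R / w B k) := by ring
          _ ≤ 2 * 2 * (R / w B k) := by gcongr
          _ = 4 * (R / w B k) := by ring
      calc (w B k : ℝ) * ‖a k + w B k‖ * ‖z‖ ^ (t + 1) / ((t + 1).factorial : ℝ)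
          ≤ (w B k : ℝ) * (2 * w B k) * R ^ (t + 1) / ((t + 1).factorial : ℝ) := by gcongr
        _ = kap B k (t + 2) * (2 * ((t : ℝ) + 2) * ((R / w B k) ^ t * (R / w B k))) := h12
        _ ≤ kap B k (t + 2) * (Real.exp (-(40 * R)) / 2) := by
            gcongr
            exact h13.trans h8
    have h20 := norm_sub_norm_le ((w B k : ℂ) * (z + w B k) ^ (t + 2) / ((t + 2).factorial : ℂ))
      ((w B k : ℂ) * (a k + w B k) * z ^ (t + 2 - 1) / ((t + 2 - 1).factorial : ℂ))
    refine le_trans ?_ h20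
    linarith

/-! ### Normality away from the accumulation set -/

theorem normal_at (B : ℕ) (a : ℕ → ℂ) (ha : ∀ k, ‖a k‖ ≤ w B k) (z₀ : ℂ) (r : ℝ) (hr : 0 < r)
    (hfar : ∀ k, ∀ z ∈ ball z₀ r, r ≤ ‖z - a k‖) :
    IsNormalFamily (ball z₀ r) {g | ∃ n : ℕ, g = iteratedDeriv n (egf (coef B a))} := by
  intro u hu
  choose n hn using hu
  set R : ℝ := ‖z₀‖ + r with hR
  have hR0 : 0 ≤ R := by positivity
  have hball : ∀ z ∈ ball z₀ r, ‖z‖ ≤ R := by
    intro z hz
    rw [mem_ball, dist_eq_norm] at hz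
    have := norm_add_le (z - z₀) z₀
    rw [sub_add_cancel] at this
    linarith
  set κ : ℕ → ℝ := fun i => if Nb B (kk B (n i)) - n i ≤ 20 * w B (kk B (n i)) then
    kap B (kk B (n i)) (Nb B (kk B (n i)) - n i) else 0 with hκ
  by_cases hT : Tendsto κ atTop atTop
  · -- convergence to infinity
    refine ⟨id, strictMono_id, Or.inr ?_⟩
    intro K hK _ M
    set c : ℝ := Real.exp (-(40 * R)) / 2 with hc
    have hcpos : 0 < c := by positivity
    have hQ := Qc_nonneg B R hR0
    set W : ℝ := max (8 * R * Real.exp (40 * R) + 4 * R) ((|M| + Qc B R) / r) with hW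
    obtain ⟨k₀, hk₀⟩ := exists_nat_ge W
    filter_upwards [hT.eventually_gt_atTop (max (Real.exp (2 * (w B k₀ : ℝ))) ((|M| + Qc B R) / c))]
      with i hi z hz
    have hi1 : Real.exp (2 * (w B k₀ : ℝ)) < κ i := lt_of_le_of_lt (le_max_left _ _) hi
    have hi2 : (|M| + Qc B R) / c < κ i := lt_of_le_of_lt (le_max_right _ _) hi
    have hm : Nb B (kk B (n i)) - n i ≤ 20 * w B (kk B (n i)) := by
      by_contra hcon
      simp only [hκ, if_neg hcon] at hi1
      exact absurd hi1 (not_lt.2 (Real.exp_pos _).le)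
    have hκi : κ i = kap B (kk B (n i)) (Nb B (kk B (n i)) - n i) := by
      simp only [hκ, if_pos hm]
    have hkbig : k₀ ≤ kk B (n i) := by
      by_contra hcon
      push Not at hcon
      have h1 := kap_le B (kk B (n i)) (Nb B (kk B (n i)) - n i)
      rw [← hκi] at h1
      have h2 : Real.exp (2 * (w B (kk B (n i)) : ℝ)) ≤ Real.exp (2 * (w B k₀ : ℝ)) := by
        apply Real.exp_le_exp.2
        have : w B (kk B (n i)) ≤ w B k₀ := by unfold w; omega
        have h3 : ((w B (kk B (n i)) : ℕ) : ℝ) ≤ (w B k₀ : ℝ) := by exact_mod_cast this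
        linarith
      linarith
    have hwbig : W ≤ w B (kk B (n i)) := by
      have h1 : k₀ ≤ w B (kk B (n i)) := by unfold w; omega
      have h2 : (k₀ : ℝ) ≤ w B (kk B (n i)) := by exact_mod_cast h1
      linarith
    have hz' : ‖z‖ ≤ R := hball z (hK hz)
    have happ := deriv_approx B a ha (n i) z R hz' hm
    have hlow : |M| + Qc B R ≤ ‖mainp B a (kk B (n i)) (Nb B (kk B (n i)) - n i) z‖ := by
      by_cases hm1 : Nb B (kk B (n i)) - n i = 1
      · rw [hm1, mainp_one, norm_mul, Complex.norm_natCast]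
        have h1 := hfar (kk B (n i)) z (hK hz)
        have h2 : (|M| + Qc B R) / r ≤ w B (kk B (n i)) := (le_max_right _ _).trans hwbig
        rw [div_le_iff₀ hr] at h2
        refine h2.trans ?_
        gcongr
      · have h1 := mainp_lower B a ha (kk B (n i)) (Nb B (kk B (n i)) - n i) z R hR0 hz' hm hm1
          ((le_max_left _ _).trans hwbig)
        rw [← hκi] at h1
        rw [div_lt_iff₀ hcpos] at hi2
        exact hi2.le.trans h1
    have h1 : M ≤ |M| := le_abs_self M
    have h2 := norm_sub_norm_le (mainp B a (kk B (n i)) (Nb B (kk B (n i)) - n i) z)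
      (iteratedDeriv (n i) (egf (coef B a)) z)
    rw [norm_sub_rev] at h2
    simp only [id]
    rw [hn i]
    linarith
  · -- bounded along a subsequence
    rw [Filter.tendsto_atTop] at hT
    push Not at hT
    obtain ⟨b, hb⟩ := hT
    have hb' : ∃ᶠ i in atTop, κ i < b := hb
    obtain ⟨φ₁, hφ₁, hb1⟩ := extraction_of_frequently_atTop hb'
    have hbound : ∀ i j, ‖coef B a (n (φ₁ i) + j)‖ ≤ (b + Real.exp (2 * B + 2)) * (Real.exp 5) ^ j := by
      intro i j
      refine (norm_coef_shift B a ha (n (φ₁ i)) j).trans ?_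
      have h1 := (hb1 i).le
      simp only [hκ] at h1
      gcongr
    obtain ⟨φ₂, hφ₂, δ, hδ, hlim⟩ := egf_compact hbound
    refine ⟨φ₁ ∘ φ₂, hφ₁.comp hφ₂, Or.inl ⟨egf δ, ?_, ?_⟩⟩
    · have hdiff : Differentiable ℂ (egf δ) := fun z => (hasDerivAt_egf hδ z).differentiableAt
      intro z _
      exact hdiff.analyticAt z
    · intro K _ hKc
      obtain ⟨R', hR'⟩ := hKc.isBounded.subset_closedBall (0 : ℂ)
      have h1 := (hlim R').mono hR'
      refine h1.congr ?_
      refine Eventually.of_forall fun i z _ => ?_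
      simp only [Function.comp]
      rw [hn (φ₁ (φ₂ i)), iteratedDeriv_egf (norm_coef B a ha)]

/-! ### Failure of normality at accumulation points -/

theorem not_normal_at (B : ℕ) (a : ℕ → ℂ) (ha : ∀ k, ‖a k‖ ≤ w B k) (z₀ : ℂ)
    (hacc : ∀ ε > 0, ∀ k₀ : ℕ, ∃ k ≥ k₀, ‖a k - z₀‖ < ε) (N : Set ℂ) (hN : IsOpen N)
    (hz₀ : z₀ ∈ N) :
    ¬ IsNormalFamily N {g | ∃ n : ℕ, g = iteratedDeriv n (egf (coef B a))} := by
  intro hnorm
  have hseq : ∀ i : ℕ, ∃ k ≥ i, ‖a k - z₀‖ < 1 / ((i : ℝ) + 1) := fun i =>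
    hacc _ (by positivity) i
  choose ks hks1 hks2 using hseq
  obtain ⟨φ, hφ, hlim⟩ := hnorm (fun i => iteratedDeriv (Nb B (ks i) - 1) (egf (coef B a)))
    (fun i => ⟨_, rfl⟩)
  have hNb1 : ∀ k, 1 ≤ Nb B k := by
    intro k
    unfold Nb w
    have : 1 ≤ (k + B + 1) ^ 2 := Nat.one_le_pow _ _ (by omega)
    omega
  have happ : ∀ (R : ℝ) (z : ℂ) (k : ℕ), ‖z‖ ≤ R →
      ‖iteratedDeriv (Nb B k - 1) (egf (coef B a)) z - (w B k : ℂ) * (z - a k)‖ ≤ Qc B R := by
    intro R z k hz
    have hk1 : 1 ≤ 20 * w B k := by unfold w; omega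
    have h1 := kk_Nb_sub B k 1 hk1
    have h2 := deriv_approx B a ha (Nb B k - 1) z R hz (by rw [h1]; have := hNb1 k; omega)
    rw [h1] at h2
    have h3 : Nb B k - (Nb B k - 1) = 1 := by have := hNb1 k; omega
    rw [h3, mainp_one] at h2
    exact h2
  obtain ⟨ρ, hρ, hρN⟩ := Metric.isOpen_iff.1 hN z₀ hz₀
  have hφi : ∀ i, i ≤ φ i := fun i => hφ.id_le i
  have hclose : ∀ ε > 0, ∀ᶠ i in atTop, ‖a (ks (φ i)) - z₀‖ < ε := by
    intro ε hε
    obtain ⟨i₀, hi₀⟩ := exists_nat_one_div_lt hε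
    filter_upwards [eventually_ge_atTop i₀] with i hi
    refine (hks2 (φ i)).trans (lt_of_le_of_lt ?_ hi₀)
    have h1 : i₀ ≤ φ i := hi.trans (hφi i)
    have h2 : (i₀ : ℝ) ≤ φ i := by exact_mod_cast h1
    gcongr
  rcases hlim with ⟨g, _, hg⟩ | hinf
  · -- analytic limit is impossible
    set z₁ : ℂ := z₀ + (ρ / 2 : ℝ) with hz₁
    have hdist : ‖z₁ - z₀‖ = ρ / 2 := by
      rw [hz₁, add_sub_cancel_left, Complex.norm_real, Real.norm_of_nonneg (by positivity)]
    have hz₁N : z₁ ∈ N := hρN (by rw [mem_ball, dist_eq_norm, hdist]; linarith)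
    have h1 := hg {z₁} (by simpa using hz₁N) isCompact_singleton
    rw [Metric.tendstoUniformlyOn_iff] at h1
    have h2 := h1 1 one_pos
    have h3 := hclose (ρ / 4) (by positivity)
    obtain ⟨i₁, hi₁⟩ := exists_nat_gt ((‖g z₁‖ + 1 + Qc B ‖z₁‖) / (ρ / 4))
    obtain ⟨i, h4, h5, h6⟩ := (h2.and (h3.and (eventually_ge_atTop i₁))).exists
    have h7 := h4 z₁ rfl
    rw [dist_comm, dist_eq_norm] at h7
    have h8 := happ ‖z₁‖ z₁ (ks (φ i)) le_rfl
    have h9 : ρ / 4 ≤ ‖z₁ - a (ks (φ i))‖ := by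
      have := norm_sub_le_norm_sub_add_norm_sub z₁ (a (ks (φ i))) z₀
      rw [hdist] at this
      linarith
    have h10 : ‖(w B (ks (φ i)) : ℂ) * (z₁ - a (ks (φ i)))‖ ≤ ‖g z₁‖ + 1 + Qc B ‖z₁‖ := by
      have e1 := norm_sub_norm_le ((w B (ks (φ i)) : ℂ) * (z₁ - a (ks (φ i))))
        (iteratedDeriv (Nb B (ks (φ i)) - 1) (egf (coef B a)) z₁)
      rw [norm_sub_rev] at e1
      have e2 := norm_sub_norm_le (iteratedDeriv (Nb B (ks (φ i)) - 1) (egf (coef B a)) z₁) (g z₁)
      linarith
    rw [norm_mul, Complex.norm_natCast] at h10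
    have h11 : (i₁ : ℝ) ≤ w B (ks (φ i)) := by
      have e1 : i₁ ≤ w B (ks (φ i)) := by
        have e2 := hks1 (φ i)
        have e3 := hφi i
        unfold w
        omega
      exact_mod_cast e1
    have h12 : ‖g z₁‖ + 1 + Qc B ‖z₁‖ < (i₁ : ℝ) * (ρ / 4) := by
      rwa [div_lt_iff₀ (by positivity)] at hi₁
    have h13 : (i₁ : ℝ) * (ρ / 4) ≤ (w B (ks (φ i)) : ℝ) * ‖z₁ - a (ks (φ i))‖ := by gcongr
    linarith
  · -- infinite limit is impossible
    set K : Set ℂ := closedBall z₀ (ρ / 2) with hK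
    have hKN : K ⊆ N := (closedBall_subset_ball (by linarith)).trans hρN
    set R : ℝ := ‖z₀‖ + ρ with hR
    have h1 := hinf K hKN (isCompact_closedBall _ _) (Qc B R + 1)
    have h2 := hclose (ρ / 2) (by positivity)
    obtain ⟨i, h3, h4⟩ := (h1.and h2).exists
    have h5 := h3 (a (ks (φ i))) (by rw [hK, mem_closedBall, dist_eq_norm]; exact h4.le)
    have h6 : ‖a (ks (φ i))‖ ≤ R := by
      have := norm_add_le (a (ks (φ i)) - z₀) z₀
      rw [sub_add_cancel] at this
      linarith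
    have h7 := happ R (a (ks (φ i))) (ks (φ i)) h6
    rw [sub_self, mul_zero, sub_zero] at h7
    linarith

/-- For every open set `G` and every open `U ⊆ G` there is an entire function `f` whose set of
MacLane points in `G` is exactly `U`. -/
theorem result (G : Set ℂ) (hG : IsOpen G) (U : Set ℂ) (hU : IsOpen U) (hUG : U ⊆ G) :
    ∃ f : ℂ → ℂ, Differentiable ℂ f ∧ macLaneSet G f = U := by
  rcases (G \ U).eq_empty_or_nonempty with hF | hF
  · -- `U = G`
    have hUG' : U = G := by
      apply le_antisymm hUG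
      intro z hz
      by_contra hcon
      have : z ∈ G \ U := ⟨hz, hcon⟩
      rw [hF] at this
      exact this
    subst hUG'
    refine ⟨fun _ => 0, differentiable_const _, ?_⟩
    ext z
    constructor
    · intro h
      exact h.1
    · intro hz
      refine ⟨hz, U, hG, hz, le_rfl, ?_⟩
      intro u hu
      refine ⟨id, strictMono_id, Or.inl ⟨fun _ => 0, fun _ _ => analyticAt_const, ?_⟩⟩
      intro K _ _
      rw [Metric.tendstoUniformlyOn_iff]
      intro ε hε
      refine Eventually.of_forall fun i z _ => ?_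
      obtain ⟨n, hn⟩ := hu i
      simp only [id]
      rw [hn]
      have : iteratedDeriv n (fun _ : ℂ => (0 : ℂ)) z = 0 := by
        rw [iteratedDeriv_const]
        split_ifs <;> rfl
      rw [this, dist_self]
      exact hε
  · -- general case
    have : Nonempty (G \ U : Set ℂ) := hF.to_subtype
    set d : ℕ → (G \ U : Set ℂ) := TopologicalSpace.denseSeq (G \ U : Set ℂ) with hd
    have hdense : DenseRange d := TopologicalSpace.denseRange_denseSeq _
    obtain ⟨B, hB⟩ := exists_nat_ge ‖(d 0 : ℂ)‖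
    set a : ℕ → ℂ := fun k => if ‖(d (Nat.unpair k).1 : ℂ)‖ ≤ w B k then (d (Nat.unpair k).1 : ℂ)
      else (d 0 : ℂ) with ha
    have haF : ∀ k, a k ∈ G \ U := by
      intro k
      simp only [ha]
      split_ifs
      · exact (d _).2
      · exact (d 0).2
    have hab : ∀ k, ‖a k‖ ≤ w B k := by
      intro k
      simp only [ha]
      split_ifs with h
      · exact h
      · refine hB.trans ?_
        unfold w
        push_cast
        have : (0 : ℝ) ≤ k := by positivity
        linarith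
    have hdiff : Differentiable ℂ (egf (coef B a)) := fun z =>
      (hasDerivAt_egf (norm_coef B a hab) z).differentiableAt
    refine ⟨egf (coef B a), hdiff, ?_⟩
    ext z
    constructor
    · rintro ⟨hzG, N, hN, hzN, _, hnorm⟩
      by_contra hzU
      refine not_normal_at B a hab z ?_ N hN hzN hnorm
      intro ε hε k₀
      obtain ⟨y, hy⟩ := hdense.exists_dist_lt (⟨z, hzG, hzU⟩ : (G \ U : Set ℂ)) hε
      obtain ⟨t, ht⟩ := exists_nat_ge ‖(d y : ℂ)‖
      refine ⟨Nat.pair y (max k₀ t), (le_max_left _ _).trans (Nat.right_le_pair _ _), ?_⟩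
      have h1 : (Nat.unpair (Nat.pair y (max k₀ t))).1 = y := by rw [Nat.unpair_pair]
      have h2 : ‖(d y : ℂ)‖ ≤ w B (Nat.pair y (max k₀ t)) := by
        refine ht.trans ?_
        have h3 : t ≤ w B (Nat.pair y (max k₀ t)) := by
          have e1 := Nat.right_le_pair y (max k₀ t)
          have e2 := le_max_right k₀ t
          unfold w
          omega
        exact_mod_cast h3
      simp only [ha, h1, if_pos h2]
      rw [Subtype.dist_eq, dist_comm, dist_eq_norm] at hy
      exact hy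
    · intro hzU
      obtain ⟨ρ, hρ, hρU⟩ := Metric.isOpen_iff.1 hU z hzU
      refine ⟨hUG hzU, ball z (ρ / 2), isOpen_ball, mem_ball_self (by positivity), ?_, ?_⟩
      · exact (ball_subset_ball (by linarith)).trans (hρU.trans hUG)
      · apply normal_at B a hab z (ρ / 2) (by positivity)
        intro k y hy
        have h1 : a k ∉ ball z ρ := fun h => (haF k).2 (hρU h)
        rw [mem_ball, dist_eq_norm, not_lt] at h1
        rw [mem_ball, dist_eq_norm] at hy
        have h2 : ‖a k - z‖ ≤ ‖y - a k‖ + ‖y - z‖ := by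
          have := norm_sub_le_norm_sub_add_norm_sub (a k) y z
          rw [norm_sub_rev (a k) y] at this
          exact this
        linarith

/-- Remark on the second question: for the simply connected domain `ℂ` the set of MacLane points
of an entire function can be disconnected. -/
theorem disconnected_example :
    ∃ f : ℂ → ℂ, Differentiable ℂ f ∧ ¬ IsPreconnected (macLaneSet Set.univ f) := by
  obtain ⟨f, hf, hM⟩ := result Set.univ isOpen_univ (ball (-2) 1 ∪ ball 2 1)
    (isOpen_ball.union isOpen_ball) (Set.subset_univ _)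
  refine ⟨f, hf, ?_⟩
  rw [hM]
  intro h
  obtain ⟨z, _, hz1, hz2⟩ := h (ball (-2) 1) (ball 2 1) isOpen_ball isOpen_ball subset_rfl
    ⟨-2, Or.inl (mem_ball_self one_pos), mem_ball_self one_pos⟩
    ⟨2, Or.inr (mem_ball_self one_pos), mem_ball_self one_pos⟩
  rw [mem_ball] at hz1 hz2
  have h1 := dist_triangle_right (-2 : ℂ) 2 z
  rw [dist_comm z] at hz1 hz2
  have h2 : dist (-2 : ℂ) 2 = 4 := by
    rw [dist_eq_norm]
    norm_num
  linarith

end Pool.Agent.Results.MP_b969c4_an.MacLaneSets
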